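import Mathlib
import Pool.Agent.TH904.IrrSub

/-!
# No irreducible linear substitution

Answer to Q1 of MP_46a474_nt (negative). For every odd prime `p` and every finite field `F` of
characteristic `p` the irreducible polynomial `f = X + Y^(p^2)`, of total degree `p^2`, has
`f(aY+b, Y) = Y^(p^2) + aY + b` reducible for all `a, b`; hence no lower bound on `q = |F|` in
terms of the degree of `f` implies `N(f) > 0`.
-/

set_option autoImplicit false

open Polynomial

namespace Pool.Agent.Results.MP_46a474_nt.NoIrreducibleLine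

open Pool.Agent.TH904.IrrSub

theorem result :
    -- the negated form of Q1
    (∃ (F : Type) (_ : Field F) (_ : Fintype F) (f : MvPolynomial (Fin 2) F),
      Irreducible f ∧ 1 ≤ f.totalDegree ∧ f.totalDegree ^ 4 < Fintype.card F ∧
      ∀ a b : F, ¬ Irreducible (subst f a b)) ∧
    -- the family of counterexamples: fixed degree `p ^ 2`, all `F` of characteristic `p`
    (∀ p : ℕ, p.Prime → p ≠ 2 → ∀ (F : Type) [Field F] [Fintype F] [CharP F p],
      Irreducible (MvPolynomial.X 0 + MvPolynomial.X 1 ^ (p ^ 2) : MvPolynomial (Fin 2) F) ∧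
      (MvPolynomial.X 0 + MvPolynomial.X 1 ^ (p ^ 2) : MvPolynomial (Fin 2) F).totalDegree
        = p ^ 2 ∧
      ∀ a b : F, ¬ Irreducible
        (subst (MvPolynomial.X 0 + MvPolynomial.X 1 ^ (p ^ 2) : MvPolynomial (Fin 2) F) a b)) := by
  have fam : ∀ p : ℕ, p.Prime → p ≠ 2 → ∀ (F : Type) [Field F] [Fintype F] [CharP F p],
      Irreducible (MvPolynomial.X 0 + MvPolynomial.X 1 ^ (p ^ 2) : MvPolynomial (Fin 2) F) ∧
      (MvPolynomial.X 0 + MvPolynomial.X 1 ^ (p ^ 2) : MvPolynomial (Fin 2) F).totalDegree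
        = p ^ 2 ∧
      ∀ a b : F, ¬ Irreducible
        (subst (MvPolynomial.X 0 + MvPolynomial.X 1 ^ (p ^ 2) : MvPolynomial (Fin 2) F) a b) := by
    intro p hp hp2 F _ _ _
    have : Fact p.Prime := ⟨hp⟩
    refine ⟨ff_irreducible F (p ^ 2), ff_totalDegree F (Nat.one_lt_pow two_ne_zero hp.one_lt), ?_⟩
    intro a b
    have h : subst (MvPolynomial.X 0 + MvPolynomial.X 1 ^ (p ^ 2) : MvPolynomial (Fin 2) F) a b =
        X ^ (p ^ 2) + C a * X + C b := subst_ff (p ^ 2) a b
    rw [h]
    exact not_irreducible hp2 a b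
  have nine : ∀ B : ℕ, ∃ (F : Type) (_ : Field F) (_ : Fintype F) (f : MvPolynomial (Fin 2) F),
      Irreducible f ∧ f.totalDegree = 9 ∧ B < Fintype.card F ∧
      ∀ a b : F, ¬ Irreducible (subst f a b) := by
    intro B
    have : Fact (Nat.Prime 3) := ⟨Nat.prime_three⟩
    let _ : Fintype (GaloisField 3 (B + 1)) := Fintype.ofFinite _
    obtain ⟨h1, h2, h3⟩ := fam 3 Nat.prime_three (by norm_num) (GaloisField 3 (B + 1))
    refine ⟨GaloisField 3 (B + 1), inferInstance, inferInstance, _, h1, by rw [h2]; norm_num, ?_, h3⟩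
    rw [← Nat.card_eq_fintype_card, GaloisField.card 3 (B + 1) (Nat.succ_ne_zero B)]
    exact (Nat.lt_succ_self B).trans (Nat.lt_pow_self (by norm_num))
  refine ⟨?_, fam⟩
  obtain ⟨F, i1, i2, f, h1, h2, h3, h4⟩ := nine (9 ^ 4)
  exact ⟨F, i1, i2, f, h1, by rw [h2]; norm_num, by rw [h2]; exact h3, h4⟩

end Pool.Agent.Results.MP_46a474_nt.NoIrreducibleLine
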